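import Pool.Agent.H74.PosetAlg.Final

/-! Every superatomic poset algebra is canonically well-generated. -/

namespace Pool.Agent.Results.MP_e71ceb_lc.PosetAlgebraCWG

open Pool.Agent.H74.PosetAlg

universe u

/-- Let `P` be a partial ordering and let `B`, with `x : P → B`, be its poset algebra `F(P)`.
If `B` is superatomic then `B` is canonically well-generated. -/
theorem result (P B : Type u) [PartialOrder P] [BooleanAlgebra B] (x : P → B)
    (hx : IsPosetAlgebra P B x) (hB : Superatomic B) : CanonicallyWellGenerated B :=
  main x hx hB

end Pool.Agent.Results.MP_e71ceb_lc.PosetAlgebraCWG
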